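import Pool.Agent.H79.BN.Targets
import Pool.Agent.H93.BL.Basic

/-!
# Non-separation: elementary consequences of strict convexity
-/

set_option autoImplicit false

open MeasureTheory Set Filter Topology Pool.Agent.H93.BL Pool.Agent.H79.BN

namespace Pool.Agent.H42.BN

theorem v1 (h0 : T_V0) : T_V1 := by
  intro n _ w hn hw
  have hne : ∀ i, ed w i ≠ 0 := by
    intro i h
    obtain ⟨-, a2, a3, -⟩ := h0 n hn i
    have h1 := hw i (i + 2) a2 a3
    rw [h, cr_zero_left] at h1
    exact lt_irrefl _ h1
  have hpos : ∀ i j, j ≠ i → j ≠ i + 1 → 0 < cr (ed w i) (w j - w i) := hw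
  have hsucc : ∀ i, cr (ed w i) (w (i + 1) - w i) = 0 := fun i => cr_self _
  have hself : ∀ i, cr (ed w i) (w i - w i) = 0 := fun i => by rw [sub_self, cr_zero_right]
  refine ⟨hne, ?_, ?_, ?_, ?_⟩
  · intro i j hij
    by_contra hcon
    have hji : j ≠ i := fun h => hcon h.symm
    by_cases h2 : j = i + 1
    · apply hne i
      unfold ed
      rw [← h2, hij, sub_self]
    · have h3 := hpos i j hji h2
      rw [← hij, hself i] at h3
      exact lt_irrefl _ h3
  · intro i
    obtain ⟨-, a2, a3, a4, -⟩ := h0 n hn i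
    have h3 := hpos i (i + 2) a2 a3
    have h4 : ed w (i + 1) = (w (i + 2) - w i) - ed w i := by
      unfold ed
      rw [a4]
      ring
    rw [h4, cr_sub_right, cr_self, sub_zero]
    exact h3
  · intro i j
    by_cases h2 : j = i
    · rw [h2, hself i]
    · by_cases h3 : j = i + 1
      · rw [h3, hsucc i]
      · exact (hpos i j h2 h3).le
  · intro i j hij
    by_contra hcon
    rw [not_or] at hcon
    have h3 := hpos i j hcon.1 hcon.2
    rw [hij] at h3
    exact lt_irrefl _ h3

end Pool.Agent.H42.BN
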