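import Pool.Agent.H79.BN.Targets
import Pool.Agent.H93.BL.Basic

/-!
# Non-separation: the rule for crossing a side
-/

set_option autoImplicit false

open MeasureTheory Set Filter Topology Pool.Agent.H93.BL Pool.Agent.H79.BN

namespace Pool.Agent.H42.BN

theorem sq_mul_conj_of_cr {e v : ℂ} (h : cr e v = 0) :
    e ^ 2 * (starRingEnd ℂ) v = ((‖e‖ ^ 2 : ℝ) : ℂ) * v := by
  have h1 : e * (starRingEnd ℂ) v = (starRingEnd ℂ) e * v := by
    unfold cr at h
    apply Complex.ext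
    · simp only [Complex.mul_re, Complex.conj_re, Complex.conj_im]
      ring
    · simp only [Complex.mul_im, Complex.conj_re, Complex.conj_im]
      linarith
  have h2 : (((‖e‖ ^ 2 : ℝ)) : ℂ) = e * (starRingEnd ℂ) e := by
    rw [Complex.mul_conj, Complex.normSq_eq_norm_sq]
  rw [h2, pow_two, mul_assoc, h1]
  ring

theorem afn_fix {a e x : ℂ} (he : e ≠ 0) (h : cr e (x - a) = 0) : afn a e x = x := by
  unfold afn rf
  rw [sq_mul_conj_of_cr h]
  have h1 : (((‖e‖ ^ 2 : ℝ)) : ℂ) ≠ 0 := by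
    rw [Ne, Complex.ofReal_eq_zero]
    exact pow_ne_zero 2 (norm_ne_zero_iff.mpr he)
  rw [mul_div_cancel_left₀ _ h1]
  ring

theorem afn_add_smul (a e X d : ℂ) (t : ℝ) :
    afn a e (X + (t : ℂ) * d) = afn a e X + ((t / ‖e‖ ^ 2 : ℝ) : ℂ) * rf e d := by
  unfold afn rf
  have h1 : X + (t : ℂ) * d - a = (X - a) + (t : ℂ) * d := by ring
  rw [h1, map_add, map_mul, Complex.conj_ofReal, Complex.ofReal_div]
  ring

theorem rc (h1 : T_V1) (h3 : T_V3) (hrm : T_RM) (hx1 : T_X1) : T_RC := by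
  intro n _ w E X d s hn hw hA hB hC τ
  have hd : d ≠ 0 := by
    rintro rfl
    rw [cr_zero_left] at hA
    exact lt_irrefl _ hA
  refine hrm n w E (X + (τ : ℂ) * d) d hn hw hd ?_
  intro s' hs' t _ hseg hcr
  have hy : X + (τ : ℂ) * d + (t : ℂ) * d = X + ((τ + t : ℝ) : ℂ) * d := by
    push_cast
    ring
  rw [hy] at hseg ⊢
  obtain rfl : s' = s := (hx1 n w hn hw X d s s' (τ + t) hseg hcr).1 hA hB
  have habl : AbL w E (afn (w s') (ed w s') X) (rf (ed w s') d) := hC.resolve_left hs'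
  have hline := (h3 n w hn hw s' s' _ hseg).2.1
  have hfix := afn_fix ((h1 n w hn hw).1 s') hline
  rw [afn_add_smul] at hfix
  have h4 := habl ((τ + t) / ‖ed w s'‖ ^ 2)
  rw [hfix] at h4
  exact h4

end Pool.Agent.H42.BN
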