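import Pool.Agent.H79.BN.Targets
import Pool.Agent.H93.BL.Basic

/-!
# Non-separation: the closed polygon meets the line of a side in this side
-/

set_option autoImplicit false

open MeasureTheory Set Filter Topology Pool.Agent.H93.BL Pool.Agent.H79.BN

namespace Pool.Agent.H42.BN

theorem par_of_cr {e v : ℂ} (he : e ≠ 0) (h : cr e v = 0) : ∃ t : ℝ, v = (t : ℂ) * e := by
  have hn : e.re ^ 2 + e.im ^ 2 ≠ 0 := by
    intro h1
    apply he
    have h2 : e.re = 0 := by nlinarith [sq_nonneg e.re, sq_nonneg e.im]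
    have h3 : e.im = 0 := by nlinarith [sq_nonneg e.re, sq_nonneg e.im]
    exact Complex.ext h2 h3
  refine ⟨(e.re * v.re + e.im * v.im) / (e.re ^ 2 + e.im ^ 2), ?_⟩
  unfold cr at h
  apply Complex.ext
  · rw [Complex.re_ofReal_mul, div_mul_eq_mul_div, eq_div_iff hn]
    linear_combination (-e.im) * h
  · rw [Complex.im_ofReal_mul, div_mul_eq_mul_div, eq_div_iff hn]
    linear_combination e.re * h

theorem v2 (h0 : T_V0) (h1 : T_V1) : T_V2 := by
  intro n _ w hn hw j x hx hj
  obtain ⟨hne, -, hcc, -⟩ := h1 n w hn hw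
  obtain ⟨t, ht⟩ := par_of_cr (hne j) hj
  have hxt : x = w j + (t : ℂ) * ed w j := by
    rw [← ht]
    ring
  have hj1 : j - 1 + 1 = j := by
    obtain ⟨-, -, -, -, -, a6, -⟩ := h0 n hn j
    exact a6
  have ht0 : 0 ≤ t := by
    have h2 := hx (j - 1)
    have h3 := hcc (j - 1)
    rw [hj1] at h3
    have h4 : x - w (j - 1) = ed w (j - 1) + (t : ℂ) * ed w j := by
      rw [hxt]
      have h5 : ed w (j - 1) = w j - w (j - 1) := by
        unfold ed
        rw [hj1]
      rw [h5]
      ring
    rw [h4, cr_add_right, cr_self, zero_add, cr_smul_right] at h2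
    exact (mul_nonneg_iff_of_pos_right h3).mp h2
  have ht1 : t ≤ 1 := by
    have h2 := hx (j + 1)
    have h3 := hcc j
    have h4 : x - w (j + 1) = (((t - 1 : ℝ)) : ℂ) * ed w j := by
      rw [hxt]
      unfold ed
      push_cast
      ring
    rw [h4, cr_smul_right, cr_swap] at h2
    by_contra hcon
    nlinarith [not_le.mp hcon]
  refine ⟨1 - t, t, by linarith, ht0, by ring, ?_⟩
  rw [hxt]
  unfold ed
  rw [Complex.real_smul, Complex.real_smul]
  push_cast
  ring

end Pool.Agent.H42.BN
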