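import Pool.Agent.H79.BN.Targets

/-!
# Non-separation: parallel pairs in a set of positive measure
-/

set_option autoImplicit false

open MeasureTheory Set Filter Topology Pool.Agent.H93.BL Pool.Agent.H79.BN

namespace Pool.Agent.H42.BN

/-- a set of positive measure contains two distinct close points -/
theorem close_pair (S : Set ℝ) (c : ℝ) (hc : 0 < c) (hS : volume S ≠ 0) :
    ∃ s ∈ S, ∃ s' ∈ S, s < s' ∧ s' - s < c := by
  by_contra hcon
  push Not at hcon
  apply hS
  have hsub : S ⊆ ⋃ k : ℤ, S ∩ {x | ⌊x / c⌋ = k} := by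
    intro x hx
    exact mem_iUnion.mpr ⟨⌊x / c⌋, hx, rfl⟩
  refine measure_mono_null hsub (measure_iUnion_null fun k => ?_)
  apply Set.Subsingleton.measure_zero
  intro x hx y hy
  have hxy : |x / c - y / c| < 1 :=
    Int.abs_sub_lt_one_of_floor_eq_floor ((show ⌊x / c⌋ = k from hx.2).trans
      (show ⌊y / c⌋ = k from hy.2).symm)
  have h1 : |x - y| < c := by
    rw [← sub_div, abs_div, abs_of_pos hc, div_lt_one hc] at hxy
    exact hxy
  rw [abs_lt] at h1
  rcases lt_trichotomy x y with h | h | h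
  · exact absurd (hcon x hx.1 y hy.1 h) (by linarith)
  · exact h
  · exact absurd (hcon y hy.1 x hx.1 h) (by linarith)

/-- the angles for which there is a pair around `q` -/
def Phs (B : Set (ℝ × ℝ)) (c : ℝ) (r : ℚ × ℚ × ℕ) : Set ℝ :=
  {φ | (0 < (r.2.1 : ℝ)) ∧ |φ| < Real.pi / 2 ∧ 1 / ((r.2.2 : ℝ) + 1) < Real.cos φ ∧
    ∃ s s', (s, φ) ∈ B ∧ (s', φ) ∈ B ∧ s < (r.1 : ℝ) - r.2.1 ∧ (r.1 : ℝ) + r.2.1 < s' ∧ s' - s < c}

theorem w1 : T_W1 := by
  intro A B c hc hA hA0 hAφ hAB
  obtain ⟨N, hN1, hN2, hN3⟩ := exists_measurable_superset_of_null hAB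
  have hA' : MeasurableSet (A \ N) := hA.diff hN2
  have hA'0 : volume (A \ N) ≠ 0 := by
    intro h
    apply hA0
    have h1 : A ⊆ (A \ N) ∪ N := fun x hx => by
      by_cases hxN : x ∈ N
      · exact Or.inr hxN
      · exact Or.inl ⟨hx, hxN⟩
    exact measure_mono_null h1 (measure_union_null h hN3)
  have hA'B : A \ N ⊆ B := by
    intro x hx
    by_contra hxB
    exact hx.2 (hN1 ⟨hx.1, hxB⟩)
  by_cases hex : ∃ r : ℚ × ℚ × ℕ, volume (Phs B c r) ≠ 0
  · obtain ⟨r, hr⟩ := hex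
    have ha : 0 < (r.2.1 : ℝ) := by
      by_contra hcon
      apply hr
      have h1 : Phs B c r = ∅ := by
        rw [Set.eq_empty_iff_forall_notMem]
        intro φ hφ
        exact hcon hφ.1
      rw [h1, measure_empty]
    refine ⟨(r.1 : ℝ), (r.2.1 : ℝ), 1 / ((r.2.2 : ℝ) + 1), Phs B c r, ha, by positivity, hr, ?_⟩
    intro φ hφ
    exact ⟨hφ.2.1, hφ.2.2.1, hφ.2.2.2⟩
  · exfalso
    push Not at hex
    apply hA'0
    rw [Measure.volume_eq_prod, Measure.prod_apply_symm hA']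
    have hae : (fun y => volume ((fun x : ℝ => (x, y)) ⁻¹' (A \ N))) =ᵐ[volume]
        fun _ => (0 : ENNReal) := by
      rw [Filter.EventuallyEq, ae_iff]
      refine measure_mono_null ?_ (measure_iUnion_null hex)
      intro φ hφ
      obtain ⟨s, hs, s', hs', hlt, hlt2⟩ := close_pair _ c hc hφ
      obtain ⟨q, hq1, hq2⟩ := exists_rat_btwn hlt
      obtain ⟨a, ha1, ha2⟩ := exists_rat_btwn (lt_min (sub_pos.mpr hq1) (sub_pos.mpr hq2))
      have hφ2 := hAφ _ hs.1
      have hcos : 0 < Real.cos φ := Real.cos_pos_of_mem_Ioo hφ2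
      obtain ⟨n, hn⟩ := exists_nat_one_div_lt hcos
      rw [mem_iUnion]
      refine ⟨(q, a, n), ?_, ?_, hn, s, s', hA'B hs, hA'B hs', ?_, ?_, hlt2⟩
      · exact ha1
      · exact abs_lt.mpr hφ2
      · have := ha2.trans_le (min_le_left _ _)
        linarith
      · have := ha2.trans_le (min_le_right _ _)
        linarith
    rw [lintegral_congr_ae hae, lintegral_zero]

end Pool.Agent.H42.BN
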